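import Mathlib
set_option autoImplicit false
open MvPolynomial

namespace PL
abbrev AA := MvPolynomial (Fin 2) ℂ
abbrev RR := MvPolynomial (Fin 4) ℂ

/-- evaluation `RR[T] → AA`, `X_i ↦ x i`, `T ↦ t` -/
noncomputable def ev (x : Fin 4 → AA) (t : AA) : Polynomial RR →+* AA :=
  Polynomial.eval₂RingHom (aeval x : RR →ₐ[ℂ] AA).toRingHom t

noncomputable def II (x : Fin 4 → AA) (t : AA) : Ideal (Polynomial RR) := RingHom.ker (ev x t)

/-- derivative in `T`, evaluated on the plane -/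
noncomputable def tau (x : Fin 4 → AA) (t : AA) (F : Polynomial RR) : AA :=
  ev x t (Polynomial.derivative F)

/-- derivative in `X_i`, evaluated on the plane -/
noncomputable def gr (x : Fin 4 → AA) (t : AA) (i : Fin 4) (F : Polynomial RR) : AA :=
  F.sum fun n a => aeval x (pderiv i a) * t ^ n

/-- the subalgebra `B` -/
noncomputable def BB (x : Fin 4 → AA) : Subalgebra ℂ AA := Algebra.adjoin ℂ (Set.range x)

/-- geometric position (module G) -/
structure GoodPos (x : Fin 4 → AA) (t : AA) : Prop where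
  gen : Algebra.adjoin ℂ (insert t (Set.range x)) = ⊤
  int : IsIntegral (BB x) t
  imm : ∀ p ξ : Fin 2 → ℂ, (∀ i, ∑ j, ξ j * eval p (pderiv j (x i)) = 0) → ξ = 0
  notriple : ∀ p q r : Fin 2 → ℂ, (∀ i, eval p (x i) = eval q (x i)) →
    (∀ i, eval p (x i) = eval r (x i)) → p = q ∨ p = r ∨ q = r
  transv : ∀ p q ξ η : Fin 2 → ℂ, p ≠ q → (∀ i, eval p (x i) = eval q (x i)) →
    (∀ i, ∑ j, ξ j * eval p (pderiv j (x i)) = ∑ j, η j * eval q (pderiv j (x i))) → ξ = 0 ∧ η = 0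
  fin : {p : Fin 2 → ℂ | ∃ q, q ≠ p ∧ ∀ i, eval p (x i) = eval q (x i)}.Finite

/-- algebraic position (module C), `D` the double points, `π` the partner -/
structure CorePos (x : Fin 4 → AA) (t : AA) (D : Set (Fin 2 → ℂ)) (π : (Fin 2 → ℂ) → (Fin 2 → ℂ)) : Prop where
  fin : D.Finite
  gen : Function.Surjective (ev x t)
  quad : ∃ α ∈ BB x, ∃ β ∈ BB x, t ^ 2 = α * t + β
  span : ∀ a : AA, ∃ b ∈ BB x, ∃ b' ∈ BB x, a = b + b' * t
  cond : ∀ a : AA, (∀ p ∈ D, eval p a = 0) → a ∈ BB x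
  imm : ∀ p ξ : Fin 2 → ℂ, (∀ i, ∑ j, ξ j * eval p (pderiv j (x i)) = 0) → ξ = 0
  grad : ∀ F : RR, aeval x F = 0 → ∀ p ∈ D, ∀ i, eval p (aeval x (pderiv i F)) = 0
  mem : ∀ p ∈ D, π p ∈ D
  inv : ∀ p ∈ D, π (π p) = p
  same : ∀ p ∈ D, ∀ i, eval (π p) (x i) = eval p (x i)
  sep : ∀ p ∈ D, eval (π p) t ≠ eval p t

end PL
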