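import Mathlib
import Pool.Agent.Helper135.PL.Iface
set_option autoImplicit false
open MvPolynomial

namespace PL

/-- ideal of the functions vanishing on `D` -/
noncomputable def rI (D : Set (Fin 2 → ℂ)) : Ideal AA := vanishingIdeal ℂ D

lemma aev_ev (p : Fin 2 → ℂ) (a : AA) : aeval p a = eval p a := by
  rw [← MvPolynomial.coe_aeval_eq_eval]; rfl

lemma mem_rI {D : Set (Fin 2 → ℂ)} {a : AA} : a ∈ rI D ↔ ∀ p ∈ D, eval p a = 0 := by
  unfold rI
  rw [mem_vanishingIdeal_iff]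
  simp only [aev_ev]

/-- the double points -/
def DD (x : Fin 4 → AA) : Set (Fin 2 → ℂ) := {p : Fin 2 → ℂ | ∃ q, q ≠ p ∧ ∀ i, eval p (x i) = eval q (x i)}

/-- conductor -/
noncomputable def cI (x : Fin 4 → AA) : Ideal AA where
  carrier := {a | ∀ a' : AA, a * a' ∈ BB x}
  zero_mem' := by intro a'; rw [zero_mul]; exact (BB x).zero_mem
  add_mem' := by
    intro a b ha hb a'
    rw [add_mul]; exact (BB x).add_mem (ha a') (hb a')
  smul_mem' := by
    intro c a ha a'
    have := ha (c * a')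
    rw [smul_eq_mul, show c * a * a' = a * (c * a') by ring]
    exact this

lemma mem_cI {x : Fin 4 → AA} {a : AA} : a ∈ cI x ↔ ∀ a' : AA, a * a' ∈ BB x := Iff.rfl

lemma C_mem (x : Fin 4 → AA) (c : ℂ) : (C c : AA) ∈ BB x := by
  have := (BB x).algebraMap_mem c
  simpa [MvPolynomial.algebraMap_eq] using this

lemma x_mem (x : Fin 4 → AA) (i : Fin 4) : x i ∈ BB x := Algebra.subset_adjoin ⟨i, rfl⟩

/-- L2: a power of the radical ideal is in the conductor -/
lemma L2 (x : Fin 4 → AA)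
    (hL1 : ∀ p, p ∉ DD x → ∃ r ∈ BB x, eval p r ≠ 0 ∧ ∀ a : AA, r * a ∈ BB x) :
    ∃ N : ℕ, (rI (DD x)) ^ N ≤ cI x := by
  have hz : zeroLocus ℂ (cI x) ⊆ DD x := by
    intro p hp
    by_contra hcon
    obtain ⟨r, hr, hr0, hrA⟩ := hL1 p hcon
    apply hr0
    have := (mem_zeroLocus_iff.1 hp) r (mem_cI.2 hrA)
    rwa [aev_ev] at this
  have hle : rI (DD x) ≤ (cI x).radical := by
    rw [← vanishingIdeal_zeroLocus_eq_radical (K := ℂ)]
    exact vanishingIdeal_anti_mono hz
  exact Ideal.exists_pow_le_of_le_radical_of_fg hle (IsNoetherian.noetherian _)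

/-- L3: one step -/
lemma L3 (x : Fin 4 → AA) (D : Set (Fin 2 → ℂ)) (hfin : D.Finite)
    (hg : ∀ a : AA, ∀ P : Fin 4 → ℂ, ∃ g : Fin 4 → ℂ, ∀ p ∈ D, (fun i => eval p (x i)) = P →
      ∀ j, ∑ i, g i * eval p (pderiv j (x i)) = eval p (pderiv j a))
    (L3a : ∀ a : AA, (∀ p ∈ D, eval p a = 0) → (∀ p ∈ D, ∀ j, eval p (pderiv j a) = 0) → a ∈ (rI D) ^ 2)
    (L3c : ∀ (S : Finset (Fin 4 → ℂ)) (P : Fin 4 → ℂ), ∃ e ∈ BB x, ∀ p : Fin 2 → ℂ, ((fun i => eval p (x i)) = P → eval p e = 1) ∧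
      ((fun i => eval p (x i)) ∈ S → (fun i => eval p (x i)) ≠ P → eval p e = 0))
    (a : AA) (ha : a ∈ rI D) : ∃ b ∈ BB x, b ∈ rI D ∧ a - b ∈ (rI D) ^ 2 := by
  classical
  set S : Finset (Fin 4 → ℂ) := hfin.toFinset.image (fun p i => eval p (x i)) with hS
  have hmemS : ∀ p ∈ D, (fun i => eval p (x i)) ∈ S := by
    intro p hp
    rw [hS, Finset.mem_image]
    exact ⟨p, hfin.mem_toFinset.2 hp, rfl⟩
  choose g hg' using hg a
  choose e heB he using L3c S
  set b : AA := ∑ P ∈ S, (∑ i, C (g P i) * (x i - C (P i))) * (e P) ^ 2 with hb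
  have hbB : b ∈ BB x := by
    rw [hb]
    apply Subalgebra.sum_mem
    intro P _
    apply Subalgebra.mul_mem
    · apply Subalgebra.sum_mem
      intro i _
      exact (BB x).mul_mem (C_mem x _) ((BB x).sub_mem (x_mem x i) (C_mem x _))
    · exact (BB x).pow_mem (heB P) 2
  have hb0 : ∀ p ∈ D, eval p b = 0 := by
    intro p hp
    rw [hb, map_sum]
    apply Finset.sum_eq_zero
    intro P hP
    rw [map_mul, map_pow]
    by_cases h : (fun i => eval p (x i)) = P
    · have : eval p (∑ i, C (g P i) * (x i - C (P i))) = 0 := by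
        rw [map_sum]
        apply Finset.sum_eq_zero
        intro i _
        rw [map_mul, map_sub, eval_C, eval_C, ← congrFun h i]
        ring
      rw [this, zero_mul]
    · rw [(he P p).2 (hmemS p hp) h]; ring
  have hb1 : ∀ p ∈ D, ∀ j, eval p (pderiv j b) = eval p (pderiv j a) := by
    intro p hp j
    rw [hb, map_sum, map_sum]
    rw [Finset.sum_eq_single (fun i => eval p (x i))]
    · rw [Derivation.leibniz, map_add, smul_eq_mul, smul_eq_mul, map_mul (eval p), map_mul (eval p),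
        map_pow (eval p), (he _ p).1 rfl]
      have h0 : eval p (∑ i, C (g (fun i => eval p (x i)) i) * (x i - C ((fun i => eval p (x i)) i))) = 0 := by
        rw [map_sum]
        apply Finset.sum_eq_zero
        intro i _
        rw [map_mul, map_sub, eval_C, eval_C]
        ring
      rw [h0, zero_mul, zero_add, one_pow, one_mul, ← hg' (fun i => eval p (x i)) p hp rfl j, map_sum, map_sum]
      apply Finset.sum_congr rfl
      intro i _
      rw [Derivation.leibniz, smul_eq_mul, smul_eq_mul, map_sub, pderiv_C, pderiv_C]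
      simp
    · intro P _ hP
      rw [Derivation.leibniz, map_add, smul_eq_mul, smul_eq_mul, map_mul (eval p), map_mul (eval p),
        map_pow (eval p), (he P p).2 (hmemS p hp) (Ne.symm hP), Derivation.leibniz_pow]
      simp [(he P p).2 (hmemS p hp) (Ne.symm hP)]
    · intro h
      exact absurd (hmemS p hp) h
  refine ⟨b, hbB, mem_rI.2 hb0, ?_⟩
  apply L3a
  · intro p hp
    rw [map_sub, hb0 p hp, (mem_rI.1 ha) p hp, sub_zero]
  · intro p hp j
    rw [map_sub, map_sub, hb1 p hp j, sub_self]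

/-- L4: iteration -/
lemma L4 (x : Fin 4 → AA) (I : Ideal AA)
    (h3 : ∀ a ∈ I, ∃ b ∈ BB x, b ∈ I ∧ a - b ∈ I ^ 2) (k : ℕ) :
    ∀ u ∈ I ^ (k+1), ∃ b ∈ BB x, b ∈ I ^ (k+1) ∧ u - b ∈ I ^ (k + 2) := by
  induction k with
  | zero =>
    intro u hu
    rw [zero_add, pow_one] at hu
    obtain ⟨b, hb, hbI, hab⟩ := h3 u hu
    exact ⟨b, hb, by rwa [zero_add, pow_one], hab⟩
  | succ k ih =>
    intro u hu
    rw [pow_succ] at hu
    refine Submodule.mul_induction_on hu ?_ ?_
    · intro u hu v hv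
      obtain ⟨b, hb, hbI, hub⟩ := ih u hu
      obtain ⟨b', hb', hbI', hvb⟩ := h3 v hv
      refine ⟨b * b', (BB x).mul_mem hb hb', ?_, ?_⟩
      · rw [pow_succ]; exact Ideal.mul_mem_mul hbI hbI'
      · have e : u * v - b * b' = u * (v - b') + (u - b) * b' := by ring
        rw [e]
        apply Ideal.add_mem
        · have := Ideal.mul_mem_mul hu hvb
          rw [← pow_add] at this
          exact this
        · have := Ideal.mul_mem_mul hub hbI'
          rw [← pow_succ] at this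
          exact this
    · intro u v hu hv
      obtain ⟨b, hb, hbI, hub⟩ := hu
      obtain ⟨b', hb', hbI', hvb⟩ := hv
      refine ⟨b + b', (BB x).add_mem hb hb', Ideal.add_mem _ hbI hbI', ?_⟩
      have e : u + v - (b + b') = (u - b) + (v - b') := by ring
      rw [e]
      exact Ideal.add_mem _ hub hvb

lemma L5 (x : Fin 4 → AA) (I : Ideal AA)
    (h3 : ∀ a ∈ I, ∃ b ∈ BB x, b ∈ I ∧ a - b ∈ I ^ 2) (k : ℕ) :
    ∀ a ∈ I, ∃ b ∈ BB x, a - b ∈ I ^ (k + 1) := by
  induction k with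
  | zero =>
    intro a ha
    exact ⟨0, (BB x).zero_mem, by simpa using ha⟩
  | succ k ih =>
    intro a ha
    obtain ⟨b, hb, hab⟩ := ih a ha
    obtain ⟨b', hb', _, hab'⟩ := L4 x I h3 k _ hab
    refine ⟨b + b', (BB x).add_mem hb hb', ?_⟩
    have e : a - (b + b') = (a - b) - b' := by ring
    rw [e]
    exact hab'

lemma L6 (x : Fin 4 → AA) (I : Ideal AA)
    (h3 : ∀ a ∈ I, ∃ b ∈ BB x, b ∈ I ∧ a - b ∈ I ^ 2) (hN : ∃ N : ℕ, I ^ N ≤ cI x) :
    ∀ a ∈ I, a ∈ BB x := by
  obtain ⟨N, hN⟩ := hN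
  intro a ha
  obtain ⟨b, hb, hab⟩ := L5 x I h3 N a ha
  have h1 : a - b ∈ cI x := hN (Ideal.pow_le_pow_right (Nat.le_succ N) hab)
  have h2 := (mem_cI.1 h1) 1
  rw [mul_one] at h2
  have := (BB x).add_mem h2 hb
  rwa [sub_add_cancel] at this

end PL
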