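import Mathlib
import Pool.Agent.Helper135.PL.Cond
set_option autoImplicit false
open MvPolynomial

namespace PL

noncomputable def mI (p : Fin 2 → ℂ) : Ideal AA := RingHom.ker (eval p)

lemma mem_mI (p : Fin 2 → ℂ) (a : AA) : a ∈ mI p ↔ eval p a = 0 := Iff.rfl

lemma y_mem (p : Fin 2 → ℂ) (j : Fin 2) : (X j - C (p j) : AA) ∈ mI p := by
  rw [mem_mI]; simp

lemma taylor (p : Fin 2 → ℂ) (a : AA) :
    a - C (eval p a) - ∑ j, C (eval p (pderiv j a)) * (X j - C (p j)) ∈ (mI p) ^ 2 := by
  induction a using MvPolynomial.induction_on with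
  | C c => simp
  | add a b ha hb =>
    have := Ideal.add_mem _ ha hb
    convert this using 1
    simp only [map_add, Fin.sum_univ_two]
    ring
  | mul_X a i ha =>
    have h1 : (a - C (eval p a) - ∑ j, C (eval p (pderiv j a)) * (X j - C (p j))) * X i ∈
        (mI p) ^ 2 := Ideal.mul_mem_right _ _ ha
    have h2 : (∑ j, C (eval p (pderiv j a)) * (X j - C (p j))) * (X i - C (p i)) ∈
        (mI p) ^ 2 := by
      rw [pow_two]
      refine Ideal.mul_mem_mul (Ideal.sum_mem _ fun j _ => Ideal.mul_mem_left _ _ (y_mem p j))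
        (y_mem p i)
    have h3 := Ideal.add_mem _ h1 h2
    convert h3 using 1
    fin_cases i
    · simp only [pderiv_mul, map_add, map_mul, eval_X, Fin.sum_univ_two, pderiv_X, Pi.single_apply]
      simp
      ring
    · simp only [pderiv_mul, map_add, map_mul, eval_X, Fin.sum_univ_two, pderiv_X, Pi.single_apply]
      simp
      ring

lemma ae_ev (q : Fin 2 → ℂ) (b : AA) : aeval q b = eval q b :=
  RingHom.congr_fun (MvPolynomial.coe_aeval_eq_eval q) b

lemma id_step {R : Type} [CommRing R] (J m : Ideal R) (hm : m ≤ J ⊔ m ^ 2) :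
    ∀ n : ℕ, m ≤ J ⊔ m ^ (n + 1) := by
  intro n
  induction n with
  | zero => rw [zero_add, pow_one]; exact le_sup_right
  | succ n ih =>
    refine hm.trans (sup_le le_sup_left ?_)
    have h1 : m ^ 2 ≤ m * (J ⊔ m ^ (n + 1)) := by
      rw [pow_two]
      exact Ideal.mul_mono_right ih
    have h2 : m * (J ⊔ m ^ (n + 1)) = m * J ⊔ m * m ^ (n + 1) := Ideal.mul_sup _ _ _
    have h3 : m * J ≤ J := Ideal.mul_le_right
    have h4 : m * m ^ (n + 1) = m ^ (n + 1 + 1) := (pow_succ' m (n + 1)).symm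
    have h5 : m * J ⊔ m * m ^ (n + 1) ≤ J ⊔ m ^ (n + 1 + 1) := by
      rw [h4]
      exact sup_le_sup_right h3 _
    exact h1.trans (h2.le.trans h5)

lemma id_fin {R : Type} [CommRing R] (J m : Ideal R) (hm : m ≤ J ⊔ m ^ 2) (N : ℕ)
    (hN : m ^ N ≤ J) : m ≤ J :=
  (id_step J m hm N).trans (sup_le le_rfl ((Ideal.pow_le_pow_right (Nat.le_succ N)).trans hN))

lemma L1a (x : Fin 4 → AA) (p : Fin 2 → ℂ)
    (himm : ∀ ξ : Fin 2 → ℂ, (∀ i, ∑ j, ξ j * eval p (pderiv j (x i)) = 0) → ξ = 0)
    (hp : ∀ q : Fin 2 → ℂ, (∀ i, eval p (x i) = eval q (x i)) → q = p) :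
    ∀ a : AA, eval p a = 0 → a ∈ Ideal.span (Set.range fun i => x i - C (eval p (x i))) := by
  set J : Ideal AA := Ideal.span (Set.range fun i => x i - C (eval p (x i))) with hJ
  have hxJ : ∀ i, x i - C (eval p (x i)) ∈ J := fun i => Ideal.subset_span ⟨i, rfl⟩
  -- radical
  have hrad : mI p ≤ J.radical := by
    rw [← vanishingIdeal_zeroLocus_eq_radical (k := ℂ) (K := ℂ) J]
    intro a ha
    rw [mem_vanishingIdeal_iff]
    intro q hq
    rw [mem_zeroLocus_iff] at hq
    have : q = p := by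
      apply hp
      intro i
      have h9 := hq _ (hxJ i)
      rw [ae_ev, map_sub, eval_C] at h9
      exact (sub_eq_zero.mp h9).symm
    subst this
    rw [ae_ev]
    exact ha
  obtain ⟨N, hN⟩ := Ideal.exists_pow_le_of_le_radical_of_fg hrad (IsNoetherian.noetherian _)
  -- left inverse
  let T : (Fin 2 → ℂ) →ₗ[ℂ] (Fin 4 → ℂ) :=
    { toFun := fun ξ i => ∑ j, ξ j * eval p (pderiv j (x i))
      map_add' := by
        intro a b; funext i; simp only [Pi.add_apply, add_mul, Finset.sum_add_distrib]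
      map_smul' := by
        intro c a; funext i; simp only [Pi.smul_apply, smul_eq_mul, RingHom.id_apply, Finset.mul_sum, mul_assoc] }
  have hT : LinearMap.ker T = ⊥ := by
    rw [LinearMap.ker_eq_bot']
    intro ξ hξ
    exact himm ξ (fun i => congrFun hξ i)
  obtain ⟨g, hg⟩ := LinearMap.exists_leftInverse_of_injective T hT
  have hgk : ∀ k j, ∑ i, eval p (pderiv k (x i)) * g (Pi.single i 1) j = if j = k then 1 else 0 := by
    intro k j
    have h1 := LinearMap.congr_fun hg (Pi.single k 1)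
    have h2 : T (Pi.single k 1) = ∑ i, eval p (pderiv k (x i)) • (Pi.single i (1:ℂ) : Fin 4 → ℂ) := by
      funext i
      fin_cases k <;> simp [T, Pi.single_apply]
    rw [LinearMap.comp_apply, h2, map_sum] at h1
    have h3 := congrFun h1 j
    simp only [map_smul, Finset.sum_apply, Pi.smul_apply, smul_eq_mul, LinearMap.id_apply, Pi.single_apply] at h3
    exact h3
  have hy : ∀ j, (X j - C (p j) : AA) ∈ J ⊔ (mI p) ^ 2 := by
    intro j
    have h1 : ∑ i, C (g (Pi.single i 1) j) * (x i - C (eval p (x i))) ∈ J :=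
      Ideal.sum_mem _ fun i _ => Ideal.mul_mem_left _ _ (hxJ i)
    have h2 : ∑ i, C (g (Pi.single i 1) j) * (x i - C (eval p (x i)) -
        ∑ k, C (eval p (pderiv k (x i))) * (X k - C (p k))) ∈ (mI p) ^ 2 :=
      Ideal.sum_mem _ fun i _ => Ideal.mul_mem_left _ _ (taylor p (x i))
    have h3 : (X j - C (p j) : AA) = ∑ i, C (g (Pi.single i 1) j) * (x i - C (eval p (x i))) -
        ∑ i, C (g (Pi.single i 1) j) * (x i - C (eval p (x i)) -
        ∑ k, C (eval p (pderiv k (x i))) * (X k - C (p k))) := by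
      rw [← Finset.sum_sub_distrib]
      have e1 : ∀ i, C (g (Pi.single i 1) j) * (x i - C (eval p (x i))) -
          C (g (Pi.single i 1) j) * (x i - C (eval p (x i)) -
          ∑ k, C (eval p (pderiv k (x i))) * (X k - C (p k))) =
          ∑ k, (C (eval p (pderiv k (x i)) * g (Pi.single i 1) j) : AA) * (X k - C (p k)) := by
        intro i
        simp only [Fin.sum_univ_two, map_mul]
        ring
      simp only [e1]
      rw [Finset.sum_comm]
      have e2 : ∀ k, ∑ i, (C (eval p (pderiv k (x i)) * g (Pi.single i 1) j) : AA) * (X k - C (p k)) =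
          C (if j = k then 1 else 0) * (X k - C (p k)) := by
        intro k
        rw [← Finset.sum_mul, ← map_sum, hgk k j]
      simp only [e2]
      simp
    rw [h3]
    exact Ideal.sub_mem _ (Ideal.mem_sup_left h1) (Ideal.mem_sup_right h2)
  have hm : mI p ≤ J ⊔ (mI p) ^ 2 := by
    intro a ha
    have ht := taylor p a
    rw [mem_mI] at ha
    rw [ha, map_zero, sub_zero] at ht
    have h1 : ∑ j, C (eval p (pderiv j a)) * (X j - C (p j)) ∈ J ⊔ (mI p) ^ 2 :=
      Ideal.sum_mem _ fun j _ => Ideal.mul_mem_left _ _ (hy j)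
    have h2 : a - ∑ j, C (eval p (pderiv j a)) * (X j - C (p j)) ∈ J ⊔ (mI p) ^ 2 :=
      Ideal.mem_sup_right ht
    have h3 : a = (a - ∑ j, C (eval p (pderiv j a)) * (X j - C (p j))) +
        ∑ j, C (eval p (pderiv j a)) * (X j - C (p j)) := (sub_add_cancel _ _).symm
    rw [h3]
    exact Ideal.add_mem _ h2 h1
  intro a ha
  exact id_fin J (mI p) hm N hN ((mem_mI p a).mpr ha)

end PL
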