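import Mathlib
import Pool.Agent.Helper135.PL.Cond
set_option autoImplicit false
open MvPolynomial

namespace PL

lemma L1b (x : Fin 4 → AA) (t : AA) (hgen : Algebra.adjoin ℂ (insert t (Set.range x)) = ⊤)
    (hint : IsIntegral (BB x) t) (p : Fin 2 → ℂ)
    (hloc : ∀ a : AA, eval p a = 0 → a ∈ Ideal.span (Set.range fun i => x i - C (eval p (x i)))) :
    ∃ r ∈ BB x, eval p r ≠ 0 ∧ ∀ a : AA, r * a ∈ BB x := by
  classical
  have hfin : (⊤ : Submodule (BB x) AA).FG := by
    have h1 := IsIntegral.fg_adjoin_singleton hint
    have h2 : Algebra.adjoin (BB x) ({t} : Set AA) = ⊤ := by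
      rw [eq_top_iff]
      intro a _
      have ha : a ∈ Algebra.adjoin ℂ (insert t (Set.range x)) := by rw [hgen]; trivial
      induction ha using Algebra.adjoin_induction with
      | mem y hy =>
        rcases hy with rfl | hy
        · exact Algebra.subset_adjoin (Set.mem_singleton _)
        · have h3 : y = algebraMap (BB x) AA ⟨y, Algebra.subset_adjoin hy⟩ := rfl
          rw [h3]; exact Subalgebra.algebraMap_mem _ _
      | algebraMap c =>
        have h3 : algebraMap ℂ AA c = algebraMap (BB x) AA (algebraMap ℂ (BB x) c) := rfl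
        rw [h3]; exact Subalgebra.algebraMap_mem _ _
      | add y z _ _ hy hz => exact add_mem (hy trivial) (hz trivial)
      | mul y z _ _ hy hz => exact mul_mem (hy trivial) (hz trivial)
    rw [h2, Algebra.top_toSubmodule] at h1
    exact h1
  let nn : Ideal (BB x) := RingHom.ker ((eval p).comp (algebraMap (BB x) AA))
  have hsup : (⊤ : Submodule (BB x) AA) ≤ (1 : Submodule (BB x) AA) ⊔ nn • (⊤ : Submodule (BB x) AA) := by
    intro a _
    have e : a = C (eval p a) + (a - C (eval p a)) := by ring
    rw [e]
    refine Submodule.add_mem_sup ?_ ?_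
    · rw [Submodule.mem_one]; exact ⟨algebraMap ℂ (BB x) (eval p a), rfl⟩
    · have h3 := hloc (a - C (eval p a)) (by simp)
      generalize a - C (eval p a) = w at h3 ⊢
      induction h3 using Submodule.span_induction with
      | mem y hy =>
        obtain ⟨i, rfl⟩ := hy
        have hb : (⟨x i, Algebra.subset_adjoin ⟨i, rfl⟩⟩ - algebraMap ℂ (BB x) (eval p (x i)) : BB x) ∈ nn := by
          show ((eval p).comp (algebraMap (BB x) AA)) _ = 0
          show (eval p) (x i - C (eval p (x i))) = 0
          simp
        have h4 : x i - C (eval p (x i)) =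
            (⟨x i, Algebra.subset_adjoin ⟨i, rfl⟩⟩ - algebraMap ℂ (BB x) (eval p (x i)) : BB x) • (1 : AA) := by
          show _ = (x i - C (eval p (x i))) * 1
          ring
        beta_reduce
        rw [h4]
        exact Submodule.smul_mem_smul hb trivial
      | zero => exact Submodule.zero_mem _
      | add y z _ _ hy hz => exact Submodule.add_mem _ hy hz
      | smul c y hys hy =>
        clear hys
        induction hy using Submodule.smul_induction_on' with
        | smul r hr n hn =>
          have h5 : c • (r • n) = r • (c * n) := by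
            show c * (r.1 * n) = r.1 * (c * n)
            ring
          rw [h5]
          exact Submodule.smul_mem_smul hr trivial
        | add u hu v hv h1 h2 =>
          rw [smul_add]
          exact Submodule.add_mem _ h1 h2
  obtain ⟨r, hr, hle⟩ := Submodule.exists_sub_one_mem_and_smul_le_of_fg_of_le_sup hfin le_rfl hsup
  refine ⟨r.1, r.2, ?_, ?_⟩
  · have h6 : (eval p) (r.1 - 1) = 0 := hr
    rw [map_sub, map_one, sub_eq_zero] at h6
    rw [h6]
    exact one_ne_zero
  · intro a
    have h7 : r • a ∈ (1 : Submodule (BB x) AA) := hle (Submodule.smul_mem_pointwise_smul a r ⊤ trivial)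
    rw [Submodule.mem_one] at h7
    obtain ⟨b, hb⟩ := h7
    have h8 : r.1 * a = b.1 := hb.symm
    rw [h8]
    exact b.2

end PL
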