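import Mathlib
import Pool.Agent.Helper135.PL.Cond
set_option autoImplicit false
open MvPolynomial

namespace PL


noncomputable def mI782 (p : Fin 2 → ℂ) : Ideal AA :=
  Ideal.span (Set.range (fun j => (X j - C (p j) : AA)))

lemma taylor782 (p : Fin 2 → ℂ) (a : AA) :
    a - C (eval p a) - ∑ j, C (eval p (pderiv j a)) * (X j - C (p j)) ∈ (mI782 p) ^ 2 := by
  induction a using MvPolynomial.induction_on with
  | C c => simp
  | add f g hf hg =>
    have := Ideal.add_mem _ hf hg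
    convert this using 1
    simp only [map_add, add_mul, Finset.sum_add_distrib]
    ring
  | mul_X f i hf =>
    have hy : ∀ j, (X j - C (p j) : AA) ∈ mI782 p := fun j => Ideal.subset_span ⟨j, rfl⟩
    have h1 := Ideal.mul_mem_right (X i) _ hf
    have h2 : (∑ j, C (eval p (pderiv j f)) * (X j - C (p j))) * (X i - C (p i))
        ∈ (mI782 p) ^ 2 := by
      rw [Finset.sum_mul]
      refine Ideal.sum_mem _ fun j _ => ?_
      rw [mul_assoc]
      exact Ideal.mul_mem_left _ _ (by rw [pow_two]; exact Ideal.mul_mem_mul (hy j) (hy i))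
    have := Ideal.add_mem _ h1 h2
    convert this using 1
    fin_cases i <;> simp [Fin.sum_univ_two, pderiv_X, Pi.single_apply] <;> ring

lemma cop782 {p q : Fin 2 → ℂ} (h : p ≠ q) : IsCoprime (mI782 p) (mI782 q) := by
  obtain ⟨j, hj⟩ := Function.ne_iff.mp h
  rw [Ideal.isCoprime_iff_exists]
  have hne : (q j - p j) ≠ 0 := sub_ne_zero.mpr (Ne.symm hj)
  refine ⟨C ((q j - p j)⁻¹) * (X j - C (p j)),
    Ideal.mul_mem_left _ _ (Ideal.subset_span ⟨j, rfl⟩),
    -C ((q j - p j)⁻¹) * (X j - C (q j)),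
    Ideal.mul_mem_left _ _ (Ideal.subset_span ⟨j, rfl⟩), ?_⟩
  have e : (C ((q j - p j)⁻¹) * (X j - C (p j)) + -C ((q j - p j)⁻¹) * (X j - C (q j)) : AA)
      = C ((q j - p j)⁻¹ * (q j - p j)) := by
    rw [C_mul, C_sub]; ring
  rw [e, inv_mul_cancel₀ hne, C_1]

lemma prod782 (a : AA) (s : Finset (Fin 2 → ℂ)) (h : ∀ p ∈ s, a ∈ (mI782 p) ^ 2) :
    a ∈ ∏ p ∈ s, (mI782 p) ^ 2 := by
  classical
  induction s using Finset.induction_on with
  | empty => simp
  | insert p s hp ih =>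
    rw [Finset.prod_insert hp]
    have hc : IsCoprime ((mI782 p) ^ 2) (∏ q ∈ s, (mI782 q) ^ 2) := by
      refine IsCoprime.prod_right fun q hq => ?_
      have hne : p ≠ q := by rintro rfl; exact hp hq
      exact (cop782 hne).pow
    rw [← Ideal.inf_eq_mul_of_isCoprime hc]
    exact ⟨h p (Finset.mem_insert_self _ _), ih fun q hq => h q (Finset.mem_insert_of_mem hq)⟩

lemma L3a (D : Set (Fin 2 → ℂ)) (hD : D.Finite) (a : AA)
    (h0 : ∀ p ∈ D, eval p a = 0) (h1 : ∀ p ∈ D, ∀ j, eval p (pderiv j a) = 0) :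
    a ∈ (rI D) ^ 2 := by
  classical
  have hT : ∀ p ∈ D, a ∈ (mI782 p) ^ 2 := by
    intro p hp
    have := taylor782 p a
    simpa [h0 p hp, h1 p hp] using this
  have h2 := prod782 a hD.toFinset (fun p hp => hT p (hD.mem_toFinset.mp hp))
  rw [Finset.prod_pow] at h2
  refine Ideal.pow_right_mono ?_ 2 h2
  intro f hf
  rw [rI, mem_vanishingIdeal_iff]
  intro p hp
  have h3 : f ∈ mI782 p := by
    have := Ideal.prod_le_inf hf
    rw [Submodule.mem_finsetInf] at this
    exact this p (hD.mem_toFinset.mpr hp)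
  have h4 : mI782 p ≤ vanishingIdeal ℂ {p} := by
    rw [mI782, Ideal.span_le]
    rintro _ ⟨j, rfl⟩
    simp [mem_vanishingIdeal_iff]
  have h5 := h4 h3
  rw [mem_vanishingIdeal_iff] at h5
  exact h5 p rfl


end PL
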