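import Mathlib
import Pool.Agent.Helper135.PL.Cond
set_option autoImplicit false
open MvPolynomial

namespace PL

lemma L3b_lin (a b : Fin 4 → Fin 2 → ℂ)
    (htr : ∀ ξ η : Fin 2 → ℂ,
      (∀ i, ∑ j, ξ j * a i j = ∑ j, η j * b i j) → ξ = 0 ∧ η = 0)
    (u v : Fin 2 → ℂ) :
    ∃ g : Fin 4 → ℂ, (∀ j, ∑ i, g i * a i j = u j) ∧ (∀ j, ∑ i, g i * b i j = v j) := by
  let L : ((Fin 2 → ℂ) × (Fin 2 → ℂ)) →ₗ[ℂ] (Fin 4 → ℂ) :=
    { toFun := fun z i => ∑ j, z.1 j * a i j - ∑ j, z.2 j * b i j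
      map_add' := by
        intro z w
        funext i
        simp only [Prod.fst_add, Prod.snd_add, Pi.add_apply, add_mul, Finset.sum_add_distrib]
        ring
      map_smul' := by
        intro c z
        funext i
        simp only [Prod.smul_fst, Prod.smul_snd, Pi.smul_apply, smul_eq_mul, RingHom.id_apply,
          mul_assoc, ← Finset.mul_sum]
        ring }
  have hL : LinearMap.ker L = ⊥ := by
    rw [LinearMap.ker_eq_bot']
    rintro ⟨ξ, η⟩ h
    have h1 : ∀ i, ∑ j, ξ j * a i j = ∑ j, η j * b i j := by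
      intro i
      have := congrFun h i
      exact sub_eq_zero.1 this
    obtain ⟨h2, h3⟩ := htr ξ η h1
    rw [h2, h3]
    rfl
  obtain ⟨g, hg⟩ := L.exists_leftInverse_of_injective hL
  let φ : ((Fin 2 → ℂ) × (Fin 2 → ℂ)) →ₗ[ℂ] ℂ :=
    { toFun := fun z => ∑ j, z.1 j * u j - ∑ j, z.2 j * v j
      map_add' := by
        intro z w
        simp only [Prod.fst_add, Prod.snd_add, Pi.add_apply, add_mul, Finset.sum_add_distrib]
        ring
      map_smul' := by
        intro c z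
        simp only [Prod.smul_fst, Prod.smul_snd, Pi.smul_apply, smul_eq_mul, RingHom.id_apply,
          mul_assoc, ← Finset.mul_sum]
        ring }
  have key : ∀ z, (φ ∘ₗ g) (L z) = φ z := by
    intro z
    have : g (L z) = z := by
      have := LinearMap.congr_fun hg z
      simpa using this
    rw [LinearMap.comp_apply, this]
  have hexp : ∀ w : Fin 4 → ℂ, (φ ∘ₗ g) w = ∑ i, (φ ∘ₗ g) (Pi.single i 1) * w i := by
    intro w
    rw [LinearMap.pi_apply_eq_sum_univ (φ ∘ₗ g) w]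
    refine Finset.sum_congr rfl fun i _ => ?_
    rw [smul_eq_mul, mul_comm]
    congr 1
    congr 1
    funext j
    simp [Pi.single_apply, eq_comm]
  refine ⟨fun i => (φ ∘ₗ g) (Pi.single i 1), fun j => ?_, fun j => ?_⟩
  · have h1 := key (Pi.single j 1, 0)
    rw [hexp] at h1
    have h2 : ∀ i, L (Pi.single j 1, 0) i = a i j := by
      intro i
      show ∑ k, (Pi.single j (1 : ℂ) : Fin 2 → ℂ) k * a i k - ∑ k, (0 : Fin 2 → ℂ) k * b i k = a i j
      simp [Pi.single_apply]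
    have h3 : φ (Pi.single j 1, 0) = u j := by
      show ∑ k, (Pi.single j (1 : ℂ) : Fin 2 → ℂ) k * u k - ∑ k, (0 : Fin 2 → ℂ) k * v k = u j
      simp [Pi.single_apply]
    rw [h3] at h1
    rw [← h1]
    exact Finset.sum_congr rfl fun i _ => by rw [h2]
  · have h1 := key (0, Pi.single j 1)
    rw [hexp] at h1
    have h2 : ∀ i, L (0, Pi.single j 1) i = - b i j := by
      intro i
      show ∑ k, (0 : Fin 2 → ℂ) k * a i k - ∑ k, (Pi.single j (1 : ℂ) : Fin 2 → ℂ) k * b i k = - b i j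
      simp [Pi.single_apply]
    have h3 : φ (0, Pi.single j 1) = - v j := by
      show ∑ k, (0 : Fin 2 → ℂ) k * u k - ∑ k, (Pi.single j (1 : ℂ) : Fin 2 → ℂ) k * v k = - v j
      simp [Pi.single_apply]
    rw [h3] at h1
    have h4 : ∑ i, (φ ∘ₗ g) (Pi.single i 1) * L (0, Pi.single j 1) i =
        - ∑ i, (φ ∘ₗ g) (Pi.single i 1) * b i j := by
      rw [← Finset.sum_neg_distrib]
      exact Finset.sum_congr rfl fun i _ => by rw [h2, mul_neg]
    rw [h4] at h1
    exact neg_injective h1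

lemma L3b (x : Fin 4 → AA) (p q : Fin 2 → ℂ)
    (htr : ∀ ξ η : Fin 2 → ℂ,
      (∀ i, ∑ j, ξ j * eval p (pderiv j (x i)) = ∑ j, η j * eval q (pderiv j (x i))) → ξ = 0 ∧ η = 0)
    (u v : Fin 2 → ℂ) :
    ∃ g : Fin 4 → ℂ, (∀ j, ∑ i, g i * eval p (pderiv j (x i)) = u j) ∧
      (∀ j, ∑ i, g i * eval q (pderiv j (x i)) = v j) :=
  L3b_lin (fun i j => eval p (pderiv j (x i))) (fun i j => eval q (pderiv j (x i))) htr u v

end PL
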