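import Mathlib
import Pool.Agent.Helper135.PL.Cond
set_option autoImplicit false
open MvPolynomial

namespace PL

lemma L3c (x : Fin 4 → AA) (S : Finset (Fin 4 → ℂ)) (P : Fin 4 → ℂ) :
    ∃ e ∈ BB x, ∀ p : Fin 2 → ℂ, ((fun i => eval p (x i)) = P → eval p e = 1) ∧
      ((fun i => eval p (x i)) ∈ S → (fun i => eval p (x i)) ≠ P → eval p e = 0) := by
  classical
  have hidx : ∀ P1 : Fin 4 → ℂ, ∃ i : Fin 4, P1 ≠ P → P i ≠ P1 i := by
    intro P1
    by_cases h : P1 = P
    · exact ⟨0, fun h' => absurd h h'⟩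
    · obtain ⟨i, hi⟩ := Function.ne_iff.1 h
      exact ⟨i, fun _ => fun e => hi e.symm⟩
  choose idx hidx using hidx
  refine ⟨∏ P1 ∈ S.erase P, (x (idx P1) - C (P1 (idx P1))) * C ((P (idx P1) - P1 (idx P1))⁻¹), ?_, ?_⟩
  · refine Subalgebra.prod_mem _ ?_
    intro P1 _
    refine mul_mem (sub_mem (Algebra.subset_adjoin ⟨_, rfl⟩) ?_) ?_
    · exact Subalgebra.algebraMap_mem (BB x) (P1 (idx P1))
    · exact Subalgebra.algebraMap_mem (BB x) ((P (idx P1) - P1 (idx P1))⁻¹)
  · intro p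
    constructor
    · intro h
      rw [map_prod]
      refine Finset.prod_eq_one fun P1 hP1 => ?_
      have h1 := Finset.ne_of_mem_erase hP1
      have h2 := hidx P1 h1
      have h3 : eval p (x (idx P1)) = P (idx P1) := congrFun h (idx P1)
      rw [map_mul, map_sub, eval_C, eval_C, h3]
      exact mul_inv_cancel₀ (sub_ne_zero.2 h2)
    · intro hS hne
      rw [map_prod]
      refine Finset.prod_eq_zero (i := fun i => eval p (x i)) (Finset.mem_erase.2 ⟨hne, hS⟩) ?_
      rw [map_mul, map_sub, eval_C]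
      simp

end PL
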