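import Mathlib
import Pool.Agent.Helper135.PL.Cond
import Pool.Agent.Helper135.PL.P_L1a
import Pool.Agent.Helper135.PL.P_L1b
import Pool.Agent.Helper135.PL.P_L3a
import Pool.Agent.Helper135.PL.P_L3b
import Pool.Agent.Helper135.PL.P_L3c
set_option autoImplicit false
open MvPolynomial

namespace PL

lemma hgrad (x : Fin 4 → AA) (t : AA) (h : GoodPos x t) (a : AA) (P : Fin 4 → ℂ) :
    ∃ g : Fin 4 → ℂ, ∀ p ∈ DD x, (fun i => eval p (x i)) = P →
      ∀ j, ∑ i, g i * eval p (pderiv j (x i)) = eval p (pderiv j a) := by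
  by_cases hex : ∃ p ∈ DD x, (fun i => eval p (x i)) = P
  · obtain ⟨p, hp, hpP⟩ := hex
    obtain ⟨q, hqp, hq⟩ := hp
    obtain ⟨g, hg1, hg2⟩ := L3b x p q (fun ξ η hh => h.transv p q ξ η (Ne.symm hqp) hq hh)
      (fun j => eval p (pderiv j a)) (fun j => eval q (pderiv j a))
    refine ⟨g, ?_⟩
    intro r _ hrP j
    have h1 : ∀ i, eval p (x i) = eval r (x i) := by
      intro i
      have e1 := congrFun hpP i
      have e2 := congrFun hrP i
      rw [e1, e2]
    rcases h.notriple p q r hq h1 with h2 | h2 | h2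
    · exact absurd h2.symm hqp
    · rw [← h2]; exact hg1 j
    · rw [← h2]; exact hg2 j
  · refine ⟨0, ?_⟩
    intro p hp hpP
    exact absurd ⟨p, hp, hpP⟩ hex

/-- every polynomial vanishing at all double points lies in `B` -/
theorem cond_of (x : Fin 4 → AA) (t : AA) (h : GoodPos x t) :
    ∀ a : AA, (∀ p ∈ DD x, eval p a = 0) → a ∈ BB x := by
  intro a ha
  have hfin : (DD x).Finite := h.fin
  refine L6 x (rI (DD x)) ?_ ?_ a (mem_rI.2 ha)
  · intro a ha
    exact L3 x (DD x) hfin (fun a P => hgrad x t h a P) (fun a h0 h1 => L3a (DD x) hfin a h0 h1)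
      (fun S P => L3c x S P) a ha
  · apply L2
    intro p hp
    apply L1b x t h.gen h.int p
    apply L1a x p (h.imm p)
    intro q hq
    by_contra hne
    exact hp ⟨q, hne, hq⟩

end PL
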