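import Mathlib
import Pool.Agent.Helper135.PL.Cond
set_option autoImplicit false
open MvPolynomial

namespace PL

open Classical in
/-- the partner of a double point -/
noncomputable def partner (x : Fin 4 → AA) (p : Fin 2 → ℂ) : Fin 2 → ℂ :=
  if h : ∃ q, q ≠ p ∧ ∀ i, eval p (x i) = eval q (x i) then h.choose else p

lemma partner_spec (x : Fin 4 → AA) {p : Fin 2 → ℂ} (h : p ∈ DD x) :
    partner x p ≠ p ∧ ∀ i, eval p (x i) = eval (partner x p) (x i) := by
  have h' : ∃ q, q ≠ p ∧ ∀ i, eval p (x i) = eval q (x i) := h
  unfold partner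
  rw [dif_pos h']
  exact h'.choose_spec

lemma partner_mem (x : Fin 4 → AA) : ∀ p ∈ DD x, partner x p ∈ DD x := by
  intro p hp
  obtain ⟨h1, h2⟩ := partner_spec x hp
  exact ⟨p, h1.symm, fun i => (h2 i).symm⟩

lemma partner_same (x : Fin 4 → AA) : ∀ p ∈ DD x, ∀ i, eval (partner x p) (x i) = eval p (x i) :=
  fun _ hp i => ((partner_spec x hp).2 i).symm

lemma partner_inv (x : Fin 4 → AA) (t : AA) (h : GoodPos x t) :
    ∀ p ∈ DD x, partner x (partner x p) = p := by
  intro p hp
  obtain ⟨h1, h2⟩ := partner_spec x hp
  obtain ⟨h3, h4⟩ := partner_spec x (partner_mem x p hp)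
  rcases h.notriple p (partner x p) (partner x (partner x p)) h2
    (fun i => (h2 i).trans (h4 i)) with h5 | h5 | h5
  · exact absurd h5.symm h1
  · exact h5.symm
  · exact absurd h5.symm h3

lemma eval_eq_of_gen (x : Fin 4 → AA) (t : AA)
    (hgen : Algebra.adjoin ℂ (insert t (Set.range x)) = ⊤) (p q : Fin 2 → ℂ)
    (hx : ∀ i, eval p (x i) = eval q (x i)) (ht : eval p t = eval q t) : p = q := by
  have key : ∀ a : AA, a ∈ Algebra.adjoin ℂ (insert t (Set.range x)) → eval p a = eval q a := by
    intro a ha
    induction ha using Algebra.adjoin_induction with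
    | mem y hy =>
      rcases hy with rfl | ⟨i, rfl⟩
      · exact ht
      · exact hx i
    | algebraMap r => simp [MvPolynomial.algebraMap_eq]
    | add y z _ _ hy hz => simp [hy, hz]
    | mul y z _ _ hy hz => simp [hy, hz]
  funext j
  have := key (X j) (by rw [hgen]; trivial)
  simpa using this

lemma partner_sep (x : Fin 4 → AA) (t : AA) (h : GoodPos x t) :
    ∀ p ∈ DD x, eval (partner x p) t ≠ eval p t := by
  intro p hp heq
  obtain ⟨h1, h2⟩ := partner_spec x hp
  exact h1 (eval_eq_of_gen x t h.gen p (partner x p) h2 heq.symm).symm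

/-- chain rule -/
lemma pderiv_aeval (x : Fin 4 → AA) (F : RR) (j : Fin 2) :
    pderiv j (aeval x F : AA) = ∑ i, aeval x (pderiv i F) * pderiv j (x i) := by
  induction F using MvPolynomial.induction_on with
  | C a =>
    rw [aeval_C, MvPolynomial.algebraMap_eq, pderiv_C]
    symm
    apply Finset.sum_eq_zero
    intro i _
    rw [pderiv_C, map_zero, zero_mul]
  | add p q hp hq =>
    rw [map_add, map_add, hp, hq, ← Finset.sum_add_distrib]
    apply Finset.sum_congr rfl
    intro i _
    rw [map_add, map_add, add_mul]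
  | mul_X p n hp =>
    rw [map_mul, aeval_X, Derivation.leibniz, smul_eq_mul, smul_eq_mul, hp, Finset.mul_sum]
    have e : ∀ i, aeval x (pderiv i (p * X n)) * pderiv j (x i) =
        aeval x p * (aeval x (pderiv i (X n) : RR) * pderiv j (x i)) +
          x n * (aeval x (pderiv i p) * pderiv j (x i)) := by
      intro i
      rw [Derivation.leibniz, smul_eq_mul, smul_eq_mul, map_add, map_mul, map_mul, aeval_X]
      ring
    rw [Finset.sum_congr rfl (fun i _ => e i), Finset.sum_add_distrib]
    congr 1
    rw [← Finset.mul_sum]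
    congr 1
    rw [Finset.sum_eq_single n]
    · rw [pderiv_X_self, map_one, one_mul]
    · intro i _ hi
      rw [pderiv_X_of_ne hi.symm, map_zero, zero_mul]
    · intro hn; exact absurd (Finset.mem_univ n) hn

lemma eval_aeval (x : Fin 4 → AA) (r : Fin 2 → ℂ) (G : RR) :
    eval r (aeval x G : AA) = eval (fun i => eval r (x i)) G := by
  induction G using MvPolynomial.induction_on with
  | C a => rw [aeval_C, MvPolynomial.algebraMap_eq, eval_C, eval_C]
  | add p q hp hq => rw [map_add, map_add, map_add, hp, hq]
  | mul_X p n hp => rw [map_mul, map_mul, map_mul, hp, aeval_X, eval_X]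

lemma grad_zero (x : Fin 4 → AA) (t : AA) (h : GoodPos x t) (F : RR) (hF : aeval x F = 0) :
    ∀ p ∈ DD x, ∀ i, eval p (aeval x (pderiv i F)) = 0 := by
  intro p hp
  obtain ⟨h1, h2⟩ := partner_spec x hp
  set q := partner x p with hq
  set v : Fin 4 → ℂ := fun i => eval p (aeval x (pderiv i F)) with hv
  have hvq : ∀ i, eval q (aeval x (pderiv i F)) = v i := by
    intro i
    simp only [hv]
    rw [eval_aeval, eval_aeval]
    congr 1
    congr 1
    funext i; exact (h2 i).symm
  have hp0 : ∀ j, ∑ i, v i * eval p (pderiv j (x i)) = 0 := by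
    intro j
    have := congrArg (eval p) (pderiv_aeval x F j)
    rw [hF, map_zero, map_zero, map_sum] at this
    rw [eq_comm, this]
    exact Finset.sum_congr rfl fun i _ => by rw [map_mul]
  have hq0 : ∀ j, ∑ i, v i * eval q (pderiv j (x i)) = 0 := by
    intro j
    have := congrArg (eval q) (pderiv_aeval x F j)
    rw [hF, map_zero, map_zero, map_sum] at this
    rw [eq_comm, this]
    exact Finset.sum_congr rfl fun i _ => by rw [map_mul, hvq]
  -- the 4 x 4 matrix
  let M : Matrix (Fin 4) (Fin 4) ℂ := fun i k =>
    if k = 0 then eval p (pderiv 0 (x i)) else if k = 1 then eval p (pderiv 1 (x i))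
    else if k = 2 then eval q (pderiv 0 (x i)) else eval q (pderiv 1 (x i))
  have hM : ∀ c : Fin 4 → ℂ, M.mulVec c = 0 → c = 0 := by
    intro c hc
    have := h.transv p q ![c 0, c 1] ![- c 2, - c 3] (Ne.symm h1) h2 (by
      intro i
      have := congrFun hc i
      simp only [Matrix.mulVec, dotProduct, Fin.sum_univ_four, M] at this
      simp at this
      simp [Fin.sum_univ_two]
      linear_combination this)
    obtain ⟨ha, hb⟩ := this
    have a0 := congrFun ha 0
    have a1 := congrFun ha 1
    have b0 := congrFun hb 0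
    have b1 := congrFun hb 1
    simp at a0 a1 b0 b1
    funext k
    fin_cases k <;> simp [a0, a1, b0, b1]
  have hinj : Function.Injective M.mulVec := by
    intro c d hcd
    have := hM (c - d) (by rw [Matrix.mulVec_sub, hcd, sub_self])
    exact sub_eq_zero.mp this
  have hunit : IsUnit M := Matrix.mulVec_injective_iff_isUnit.mp hinj
  have hvM : Matrix.vecMul v M = 0 := by
    funext k
    simp only [Matrix.vecMul, dotProduct, M]
    fin_cases k
    · simpa using hp0 0
    · simpa using hp0 1
    · simpa using hq0 0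
    · simpa using hq0 1
  have : v = 0 := by
    have hinj2 : Function.Injective M.vecMul := Matrix.vecMul_injective_iff_isUnit.mpr hunit
    exact hinj2 (by simpa using hvM)
  intro i
  exact congrFun this i

end PL

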