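import Mathlib
import Pool.Agent.Helper135.PL.CondFinal
import Pool.Agent.Helper135.PL.H403
import Pool.Agent.Helper794.PLg1b
set_option autoImplicit false
open MvPolynomial

namespace PL

lemma ev_surj (x : Fin 4 → AA) (t : AA)
    (hgen : Algebra.adjoin ℂ (insert t (Set.range x)) = ⊤) : Function.Surjective (ev x t) := by
  intro a
  have ha : a ∈ Algebra.adjoin ℂ (insert t (Set.range x)) := by rw [hgen]; trivial
  induction ha using Algebra.adjoin_induction with
  | mem y hy =>
    rcases hy with rfl | ⟨i, rfl⟩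
    · exact ⟨Polynomial.X, by simp [ev]⟩
    · exact ⟨Polynomial.C (X i), by simp [ev]⟩
  | algebraMap r => exact ⟨Polynomial.C (C r), by simp [ev, MvPolynomial.algebraMap_eq]⟩
  | add y z _ _ hy hz =>
    obtain ⟨F, hF⟩ := hy
    obtain ⟨G, hG⟩ := hz
    exact ⟨F + G, by rw [map_add, hF, hG]⟩
  | mul y z _ _ hy hz =>
    obtain ⟨F, hF⟩ := hy
    obtain ⟨G, hG⟩ := hz
    exact ⟨F * G, by rw [map_mul, hF, hG]⟩

lemma span_of (x : Fin 4 → AA) (t : AA) (h : GoodPos x t) (a : AA) :
    ∃ b ∈ BB x, ∃ b' ∈ BB x, a = b + b' * t :=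
  Pool.Agent.Helper794.PLg1.span_of_good x t h.gen h.int h.imm h.notriple a

/-- MODULE H -/
theorem modH (x : Fin 4 → AA) (t : AA) (h : GoodPos x t) : ∃ D π, CorePos x t D π := by
  refine ⟨DD x, partner x, ?_⟩
  constructor
  · exact h.fin
  · exact ev_surj x t h.gen
  · obtain ⟨b, hb, b', hb', e⟩ := span_of x t h (t ^ 2)
    exact ⟨b', hb', b, hb, by rw [e]; ring⟩
  · exact span_of x t h
  · exact cond_of x t h
  · exact h.imm
  · intro F hF p hp i
    exact grad_zero x t h F hF p hp i
  · exact partner_mem x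
  · exact partner_inv x t h
  · exact partner_same x
  · exact partner_sep x t h

end PL
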